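import Mathlib

set_option autoImplicit false

open Complex

noncomputable section

namespace Pool.Agent.Work.MP_e72e80_gt

/-- The function defining the cone: `F = {Φ ≤ 0}`. -/
def Phi (x : ℂ × ℂ) : ℝ :=
  (‖x.1‖ ^ 2 + 11 / 25 * ‖x.2‖ ^ 2) ^ 2 -
    72 / 25 * ‖x.2‖ * (‖x.1‖ ^ 2 * ‖x.2‖ + (x.1 ^ 2 * (starRingEnd ℂ) x.2).re)

lemma continuous_Phi : Continuous Phi := by
  unfold Phi
  fun_prop

lemma Phi_smul (r : ℝ) (hr : 0 ≤ r) (x : ℂ × ℂ) : Phi (r • x) = r ^ 4 * Phi x := by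
  unfold Phi
  simp only [Prod.smul_fst, Prod.smul_snd, norm_smul, Real.norm_eq_abs, abs_of_nonneg hr]
  have : ((r • x.1) ^ 2 * (starRingEnd ℂ) (r • x.2)).re =
      r ^ 3 * (x.1 ^ 2 * (starRingEnd ℂ) x.2).re := by
    have : ((r • x.1) ^ 2 * (starRingEnd ℂ) (r • x.2)) =
      ((r ^ 3 : ℝ) : ℂ) * (x.1 ^ 2 * (starRingEnd ℂ) x.2) := by
      simp only [real_smul, map_mul, conj_ofReal]
      push_cast
      ring
    rw [this, re_ofReal_mul]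
  rw [this]
  ring

lemma Phi_sq (u s : ℂ) : Phi (u, s ^ 2) =
    (‖u‖ ^ 2 + 11 / 25 * ‖s‖ ^ 4) ^ 2 -
      (12 / 5 * ‖s‖ * (u * (starRingEnd ℂ) s).re) ^ 2 := by
  unfold Phi
  simp only [norm_pow]
  have h1 : ‖u‖ ^ 2 = u.re ^ 2 + u.im ^ 2 := by
    rw [← Complex.normSq_eq_norm_sq, Complex.normSq_apply]; ring
  have h2 : ‖s‖ ^ 2 = s.re ^ 2 + s.im ^ 2 := by
    rw [← Complex.normSq_eq_norm_sq, Complex.normSq_apply]; ring
  have h3 : (u ^ 2 * (starRingEnd ℂ) (s ^ 2)).re =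
      2 * ((u * (starRingEnd ℂ) s).re) ^ 2 - ‖u‖ ^ 2 * ‖s‖ ^ 2 := by
    rw [h1, h2]
    simp [pow_two]
    ring
  rw [h3]
  ring

lemma norm_sub_sq (u s : ℂ) : ‖u - (6 / 5 : ℝ) * (‖s‖ : ℂ) * s‖ ^ 2 =
    ‖u‖ ^ 2 - 12 / 5 * ‖s‖ * (u * (starRingEnd ℂ) s).re + 36 / 25 * ‖s‖ ^ 4 := by
  have h1 : ‖u‖ ^ 2 = u.re ^ 2 + u.im ^ 2 := by
    rw [← Complex.normSq_eq_norm_sq, Complex.normSq_apply]; ring
  have h2 : ‖s‖ ^ 2 = s.re ^ 2 + s.im ^ 2 := by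
    rw [← Complex.normSq_eq_norm_sq, Complex.normSq_apply]; ring
  have h4 : ‖s‖ ^ 4 = ‖s‖ ^ 2 * (s.re ^ 2 + s.im ^ 2) := by
    rw [← h2]; ring
  rw [← Complex.normSq_eq_norm_sq, Complex.normSq_apply, h1, h4]
  simp
  ring

lemma Phi_neg_of_lt {u s : ℂ} (h : ‖u - (6 / 5 : ℝ) * (‖s‖ : ℂ) * s‖ < ‖s‖ ^ 2) :
    Phi (u, s ^ 2) < 0 := by
  have h1 : ‖u - (6 / 5 : ℝ) * (‖s‖ : ℂ) * s‖ ^ 2 < (‖s‖ ^ 2) ^ 2 := by
    gcongr
  rw [norm_sub_sq] at h1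
  rw [Phi_sq]
  have hA : 0 ≤ ‖u‖ ^ 2 + 11 / 25 * ‖s‖ ^ 4 := by positivity
  nlinarith

lemma Phi_nonpos_iff {u s : ℂ} : Phi (u, s ^ 2) ≤ 0 ↔
    ‖u - (6 / 5 : ℝ) * (‖s‖ : ℂ) * s‖ ≤ ‖s‖ ^ 2 ∨
    ‖u - (6 / 5 : ℝ) * (‖-s‖ : ℂ) * (-s)‖ ≤ ‖-s‖ ^ 2 := by
  rw [← sq_le_sq₀ (norm_nonneg _) (by positivity), ← sq_le_sq₀ (norm_nonneg _) (by positivity),
    norm_sub_sq, norm_sub_sq, Phi_sq]
  have hA : 0 ≤ ‖u‖ ^ 2 + 11 / 25 * ‖s‖ ^ 4 := by positivity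
  simp only [norm_neg, map_neg, mul_neg, neg_re]
  set A := ‖u‖ ^ 2 + 11 / 25 * ‖s‖ ^ 4 with hAdef
  set B := 12 / 5 * ‖s‖ * (u * (starRingEnd ℂ) s).re with hBdef
  have e1 : (‖u‖ ^ 2 - B + 36 / 25 * ‖s‖ ^ 4 ≤ (‖s‖ ^ 2) ^ 2) ↔ A ≤ B := by
    constructor <;> intro h <;> nlinarith
  have e2 : (‖u‖ ^ 2 - -B + 36 / 25 * ‖s‖ ^ 4 ≤ (‖s‖ ^ 2) ^ 2) ↔ A ≤ -B := by
    constructor <;> intro h <;> nlinarith
  rw [e1, e2]
  constructor
  · intro h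
    have : A ≤ |B| := by
      apply abs_le_of_sq_le_sq' _ (abs_nonneg _) |>.2
      rw [sq_abs]; linarith
    rcases abs_cases B with ⟨h1, _⟩ | ⟨h1, _⟩
    · left; linarith
    · right; linarith
  · rintro (h | h)
    · nlinarith
    · nlinarith

/-- square root of `1 + i t` with precise control -/
lemma exists_sigma (t : ℝ) (ht0 : t ≠ 0) (ht : |t| ≤ 1 / 2) :
    ∃ σ : ℂ, σ ^ 2 = 1 + t * I ∧
      1 + 6 / 5 * ‖(‖σ‖ : ℂ) * σ - (1 + t / 2 * I)‖ < ‖σ‖ ^ 2 := by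
  have ht2 : t ^ 2 ≤ 1 / 4 := by
    have := abs_le.1 ht
    nlinarith
  have htpos : 0 < t ^ 2 := by positivity
  obtain ⟨r, hr⟩ : ∃ r, r = √(1 + t ^ 2) := ⟨_, rfl⟩
  have hr2 : r ^ 2 = 1 + t ^ 2 := by rw [hr, Real.sq_sqrt (by positivity)]
  have hr0 : 0 ≤ r := by rw [hr]; positivity
  have hr1 : 1 < r := by nlinarith
  have hr3 : r ≤ 1 + 1 / 8 := by nlinarith
  obtain ⟨p, hp⟩ : ∃ p, p = √((r + 1) / 2) := ⟨_, rfl⟩
  have hp2 : p ^ 2 = (r + 1) / 2 := by rw [hp, Real.sq_sqrt (by positivity)]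
  have hp0 : 0 ≤ p := by rw [hp]; positivity
  have hp1 : 1 < p := by nlinarith
  obtain ⟨q, hq⟩ : ∃ q, q = t / (2 * p) := ⟨_, rfl⟩
  have hq1 : 2 * p * q = t := by rw [hq]; field_simp
  have hq2 : q ^ 2 = (r - 1) / 2 := by
    have h1 : (2 * p * q) ^ 2 = r ^ 2 - 1 := by rw [hq1, hr2]; ring
    have h2 : (2 * p * q) ^ 2 = 2 * (r + 1) * q ^ 2 := by
      rw [mul_pow, mul_pow, hp2]; ring
    have h3 : 2 * (r + 1) * q ^ 2 = 2 * (r + 1) * ((r - 1) / 2) := by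
      rw [← h2, h1]; ring
    exact mul_left_cancel₀ (by positivity) h3
  obtain ⟨n, hn⟩ : ∃ n, n = √r := ⟨_, rfl⟩
  have hn2 : n ^ 2 = r := by rw [hn, Real.sq_sqrt hr0]
  have hn0 : 0 ≤ n := by rw [hn]; positivity
  have hn1 : 1 < n := by nlinarith
  have hnorm2 : ‖(⟨p, q⟩ : ℂ)‖ ^ 2 = r := by
    rw [← Complex.normSq_eq_norm_sq, Complex.normSq_apply]
    simp only
    linear_combination hp2 + hq2
  have hnorm : ‖(⟨p, q⟩ : ℂ)‖ = n := by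
    have : ‖(⟨p, q⟩ : ℂ)‖ ^ 2 = n ^ 2 := by rw [hnorm2, hn2]
    exact (sq_eq_sq₀ (norm_nonneg _) hn0).1 this
  refine ⟨⟨p, q⟩, ?_, ?_⟩
  · apply Complex.ext
    · simp [pow_two]; linear_combination hp2 - hq2
    · simp [pow_two]; linear_combination hq1
  · rw [hnorm]
    have heq : ((n : ℂ) * ⟨p, q⟩ - (1 + t / 2 * I)) = ⟨n * p - 1, n * q - t / 2⟩ := by
      apply Complex.ext <;> simp
    rw [heq]
    have hη : ‖(⟨n * p - 1, n * q - t / 2⟩ : ℂ)‖ ^ 2 =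
        (n * p - 1) ^ 2 + (n * q - t / 2) ^ 2 := by
      rw [← Complex.normSq_eq_norm_sq, Complex.normSq_apply]
      simp only
      ring
    obtain ⟨h, hh⟩ : ∃ h, h = r - 1 := ⟨_, rfl⟩
    have hh0 : 0 < h := by linarith
    have hh1 : h ≤ 1 / 8 := by linarith
    have hnp2 : (n * p) ^ 2 = (1 + h) * (2 + h) / 2 := by
      rw [mul_pow, hn2, hp2, hh]; ring
    have hnp : n * p - 1 ≤ 3 / 4 * h + h ^ 2 / 4 := by
      have : (n * p) ^ 2 ≤ (1 + (3 / 4 * h + h ^ 2 / 4)) ^ 2 := by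
        have e : (1 + (3 / 4 * h + h ^ 2 / 4)) ^ 2 =
            (1 + h) * (2 + h) / 2 + (3 / 4 * h + h ^ 2 / 4) ^ 2 := by ring
        rw [hnp2, e]
        linarith [sq_nonneg (3 / 4 * h + h ^ 2 / 4)]
      have := abs_le_of_sq_le_sq' this (by positivity)
      linarith [this.2]
    have hnp0 : 0 ≤ n * p - 1 := by
      have h1 : 0 < (n - 1) * (p - 1) := mul_pos (sub_pos.2 hn1) (sub_pos.2 hp1)
      have h2 : n * p = (n - 1) * (p - 1) + n + p - 1 := by ring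
      linarith
    have hre : (n * p - 1) ^ 2 ≤ (3 / 4 * h + h ^ 2 / 4) ^ 2 := by gcongr
    have him1 : n * q - t / 2 = q * (n - p) := by rw [← hq1]; ring
    have hnsubp : 0 ≤ n - p ∧ n - p ≤ h / 4 := by
      have e1 : (n - p) * (n + p) = h / 2 := by
        have : (n - p) * (n + p) = n ^ 2 - p ^ 2 := by ring
        rw [this, hn2, hp2, hh]; ring
      have h1 : 0 ≤ n - p := by
        by_contra hcon
        push Not at hcon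
        have := mul_neg_of_neg_of_pos hcon (show 0 < n + p by linarith)
        linarith
      refine ⟨h1, ?_⟩
      have h2 : (2 : ℝ) ≤ n + p := by linarith
      have := mul_le_mul_of_nonneg_left h2 h1
      linarith
    have him : (n * q - t / 2) ^ 2 ≤ h / 2 * (h / 4) ^ 2 := by
      rw [him1, mul_pow, hq2, ← hh]
      have : (n - p) ^ 2 ≤ (h / 4) ^ 2 := by
        have := hnsubp.1
        have := hnsubp.2
        gcongr
      have : h / 2 * (n - p) ^ 2 ≤ h / 2 * (h / 4) ^ 2 := by gcongr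
      linarith
    have hfin : (6 / 5 * ‖(⟨n * p - 1, n * q - t / 2⟩ : ℂ)‖) ^ 2 < h ^ 2 := by
      rw [mul_pow, hη]
      have h5 : 0 < h ^ 2 := by positivity
      have h3 : h ^ 3 ≤ h ^ 2 / 8 := by
        have : h ^ 3 = h ^ 2 * h := by ring
        rw [this]
        have : h ^ 2 * h ≤ h ^ 2 * (1 / 8) := by gcongr
        linarith
      have h4 : h ^ 4 ≤ h ^ 2 / 64 := by
        have : h ^ 4 = h ^ 3 * h := by ring
        rw [this]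
        have : h ^ 3 * h ≤ h ^ 3 * (1 / 8) := by gcongr
        linarith
      have e1 : (3 / 4 * h + h ^ 2 / 4) ^ 2 = 9 / 16 * h ^ 2 + 3 / 8 * h ^ 3 + h ^ 4 / 16 := by
        ring
      have e2 : h / 2 * (h / 4) ^ 2 = h ^ 3 / 32 := by ring
      rw [e1] at hre
      rw [e2] at him
      linarith
    have := abs_lt_of_sq_lt_sq hfin hh0.le
    rw [abs_of_nonneg (by positivity)] at this
    rw [hn2]
    linarith

/-- The closed cone. -/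
def FF : Set (ℂ × ℂ) := {x | Phi x ≤ 0}

lemma isClosed_FF : IsClosed FF := isClosed_le continuous_Phi continuous_const

lemma isOpen_Phi_neg : IsOpen {x | Phi x < 0} := isOpen_lt continuous_Phi continuous_const

lemma smul_mem_FF {r : ℝ} (hr : 0 ≤ r) {x : ℂ × ℂ} (hx : x ∈ FF) : r • x ∈ FF := by
  change Phi (r • x) ≤ 0
  rw [Phi_smul r hr]
  have : Phi x ≤ 0 := hx
  have : 0 ≤ r ^ 4 := by positivity
  nlinarith

lemma snd_ne_zero_of_mem {x : ℂ × ℂ} (hx : x ∈ FF) (h0 : x ≠ 0) : x.2 ≠ 0 := by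
  intro h
  apply h0
  have h1 : Phi x ≤ 0 := hx
  unfold Phi at h1
  rw [h] at h1
  simp only [norm_zero] at h1
  have h2 : ‖x.1‖ ^ 4 ≤ 0 := by nlinarith
  have h3 : ‖x.1‖ = 0 := by
    have : 0 ≤ ‖x.1‖ ^ 4 := by positivity
    have h4 : ‖x.1‖ ^ 4 = 0 := le_antisymm h2 this
    exact pow_eq_zero_iff (by norm_num) |>.1 h4
  exact Prod.ext (norm_eq_zero.1 h3) h

/-- Every nonzero point of the cone is the centre of a segment, transverse to the ray,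
whose other points near the centre lie in the interior. -/
lemma property_P {x : ℂ × ℂ} (hx : x ∈ FF) (h0 : x ≠ 0) :
    ∃ b : ℂ × ℂ, (∀ r : ℝ, b ≠ r • x) ∧ ∃ δ > (0 : ℝ), ∀ t : ℝ, t ≠ 0 → |t| < δ →
      x + t • b ∈ interior FF := by
  have hv := snd_ne_zero_of_mem hx h0
  obtain ⟨s, hs⟩ : ∃ s : ℂ, s ^ 2 = x.2 := ⟨x.2 ^ ((1 : ℂ) / 2), by
    rw [← Complex.cpow_mul_nat]; simp⟩
  obtain ⟨s, hs, hle⟩ : ∃ s : ℂ, s ^ 2 = x.2 ∧
      ‖x.1 - (6 / 5 : ℝ) * (‖s‖ : ℂ) * s‖ ≤ ‖s‖ ^ 2 := by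
    have h1 : Phi (x.1, s ^ 2) ≤ 0 := by rw [hs]; exact hx
    rcases Phi_nonpos_iff.1 h1 with h | h
    · exact ⟨s, hs, h⟩
    · exact ⟨-s, by rw [← hs]; ring, h⟩
  have hs0 : s ≠ 0 := by
    rintro rfl
    apply hv
    rw [← hs]; simp
  have hspos : 0 < ‖s‖ := norm_pos_iff.2 hs0
  refine ⟨((3 / 5 : ℝ) * (‖s‖ : ℂ) * s * I, x.2 * I), ?_, 1 / 2, by norm_num, ?_⟩
  · intro r h
    have h2 := congrArg Prod.snd h
    simp only [Prod.smul_snd, real_smul] at h2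
    have h3 : I = (r : ℂ) := mul_left_cancel₀ hv (by rw [h2]; ring)
    have := congrArg Complex.im h3
    simp at this
  · intro t ht0 ht
    obtain ⟨σ, hσ, hlt⟩ := exists_sigma t ht0 ht.le
    have hsub : {x | Phi x < 0} ⊆ FF := fun y (hy : Phi y < 0) ↦ show Phi y ≤ 0 from hy.le
    apply interior_maximal hsub isOpen_Phi_neg
    have e : x + t • ((3 / 5 : ℝ) * (‖s‖ : ℂ) * s * I, x.2 * I) =
        (x.1 + t * ((3 / 5 : ℝ) * (‖s‖ : ℂ) * s * I), (s * σ) ^ 2) := by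
      apply Prod.ext
      · simp
      · simp only [Prod.snd_add, Prod.smul_snd, real_smul]
        rw [mul_pow, hs, hσ]; ring
    change Phi _ < 0
    rw [e]
    apply Phi_neg_of_lt
    have e2 : x.1 + t * ((3 / 5 : ℝ) * (‖s‖ : ℂ) * s * I) -
        (6 / 5 : ℝ) * (‖s * σ‖ : ℂ) * (s * σ) =
        (x.1 - (6 / 5 : ℝ) * (‖s‖ : ℂ) * s) -
        (6 / 5 : ℝ) * (‖s‖ : ℂ) * s * ((‖σ‖ : ℂ) * σ - (1 + t / 2 * I)) := by
      rw [norm_mul]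
      push_cast
      ring
    rw [e2]
    calc _ ≤ ‖x.1 - (6 / 5 : ℝ) * (‖s‖ : ℂ) * s‖ +
        ‖(6 / 5 : ℝ) * (‖s‖ : ℂ) * s * ((‖σ‖ : ℂ) * σ - (1 + t / 2 * I))‖ := norm_sub_le _ _
      _ ≤ ‖s‖ ^ 2 + 6 / 5 * ‖s‖ ^ 2 * ‖(‖σ‖ : ℂ) * σ - (1 + t / 2 * I)‖ := by
        gcongr
        rw [norm_mul, norm_mul, norm_mul]
        simp only [norm_real, norm_norm]
        rw [Real.norm_of_nonneg (by norm_num)]
        apply le_of_eq; ring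
      _ = ‖s‖ ^ 2 * (1 + 6 / 5 * ‖(‖σ‖ : ℂ) * σ - (1 + t / 2 * I)‖) := by ring
      _ < ‖s‖ ^ 2 * ‖σ‖ ^ 2 := by gcongr
      _ = ‖s * σ‖ ^ 2 := by rw [norm_mul]; ring

end Pool.Agent.Work.MP_e72e80_gt
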