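import Mathlib

set_option autoImplicit false

open CategoryTheory AlgebraicTopology

noncomputable section

namespace Pool.Agent.Work.MP_e72e80_gt

/-- Singular homology in degree `n` with integer coefficients, as a functor from topological
spaces to abelian groups. -/
def singH (n : ℕ) : TopCat.{0} ⥤ ModuleCat.{0} ℤ :=
  (singularHomologyFunctor (ModuleCat.{0} ℤ) n).obj (ModuleCat.of ℤ ℤ)

/-- The inclusion of a subspace in a larger one, as a morphism of topological spaces. -/
def inclMap {X : Type} [TopologicalSpace X] {S T : Set X} (h : S ⊆ T) :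
    TopCat.of ↥S ⟶ TopCat.of ↥T :=
  TopCat.ofHom ⟨Set.inclusion h, continuous_inclusion h⟩

/-- The inclusion `S ⊆ T` induces an injective map on integral singular homology in
degree `n`. -/
def InclInjective {X : Type} [TopologicalSpace X] (n : ℕ) {S T : Set X} (h : S ⊆ T) : Prop :=
  Function.Injective ((singH n).map (inclMap h))

/-- `k`-convexity: for every `(k+1)`-dimensional simplex (given by `k+2` affinely independent
vertices `p`) and every choice `j` of one facet left out, if the `k+1` facets opposite to the
vertices `p i`, `i ≠ j`, lie in `Ω`, then the whole simplex lies in `Ω`. -/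
def IsKConvex (k m : ℕ) (Ω : Set (EuclideanSpace ℝ (Fin m))) : Prop :=
  ∀ p : Fin (k + 2) → EuclideanSpace ℝ (Fin m), AffineIndependent ℝ p →
    ∀ j : Fin (k + 2), (∀ i, i ≠ j → convexHull ℝ (p '' {i}ᶜ) ⊆ Ω) →
      convexHull ℝ (Set.range p) ⊆ Ω

/-- Lefschetz-`k`-convexity: for every `k`-dimensional affine subspace `A`, the inclusion
`Ω ∩ A → Ω` induces an injective map on singular homology in degree `k - 1` with integer
coefficients. -/
def IsLefschetzKConvex (k m : ℕ) (Ω : Set (EuclideanSpace ℝ (Fin m))) : Prop :=
  ∀ A : AffineSubspace ℝ (EuclideanSpace ℝ (Fin m)), (A : Set (EuclideanSpace ℝ (Fin m))).Nonempty →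
    Module.finrank ℝ A.direction = k →
      InclInjective (k - 1) (Set.inter_subset_left : Ω ∩ (A : Set (EuclideanSpace ℝ (Fin m))) ⊆ Ω)

end Pool.Agent.Work.MP_e72e80_gt
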