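import Mathlib

set_option autoImplicit false

open Complex

noncomputable section

namespace Pool.Agent.Work.MP_e72e80_gt

/-- The transversality property of a cone used in the argument. -/
def PropP (F : Set (ℂ × ℂ)) : Prop :=
  ∀ x ∈ F, x ≠ 0 → ∃ b : ℂ × ℂ, (∀ r : ℝ, b ≠ r • x) ∧ ∃ δ > (0 : ℝ), ∀ t : ℝ, t ≠ 0 → |t| < δ →
      x + t • b ∈ interior F

lemma arg_pos_of_im_pos {z : ℂ} (h : 0 < z.im) : 0 < z.arg := by
  rcases (Complex.arg_nonneg_iff.2 h.le).lt_or_eq with h1 | h1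
  · exact h1
  · have := (Complex.arg_eq_zero_iff.1 h1.symm).2
    linarith

/-- A linear map to `ℂ` that is onto cannot send the nonzero part of a closed cone with
property P into the slit plane. -/
lemma not_slit {F : Set (ℂ × ℂ)} (hclosed : IsClosed F)
    (hcone : ∀ r : ℝ, 0 ≤ r → ∀ x ∈ F, r • x ∈ F) (hP : PropP F)
    (hne : ∃ x ∈ F, x ≠ 0) (z : ℂ × ℂ →ₗ[ℝ] ℂ) (hsurj : Function.Surjective z)
    (hslit : ∀ x ∈ F, x ≠ 0 → z x ∈ slitPlane) : False := by
  have hzc : Continuous z := z.continuous_of_finiteDimensional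
  have hK : IsCompact (F ∩ Metric.sphere (0 : ℂ × ℂ) 1) :=
    (isCompact_sphere _ _).inter_left hclosed
  have norm_mem : ∀ x ∈ F, x ≠ 0 → (‖x‖⁻¹ : ℝ) • x ∈ F ∩ Metric.sphere (0 : ℂ × ℂ) 1 := by
    intro x hx h0
    refine ⟨hcone _ (by positivity) x hx, ?_⟩
    rw [mem_sphere_zero_iff_norm, norm_smul, norm_inv, norm_norm]
    exact inv_mul_cancel₀ (norm_ne_zero_iff.2 h0)
  obtain ⟨x0, hx0, hx00⟩ := hne
  have hslit' : ∀ x ∈ F ∩ Metric.sphere (0 : ℂ × ℂ) 1, z x ∈ slitPlane := by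
    intro x hx
    apply hslit x hx.1
    rintro rfl
    simpa using hx.2
  obtain ⟨x1, hx1, hmax⟩ := hK.exists_isMaxOn ⟨_, norm_mem x0 hx0 hx00⟩
    (f := fun x ↦ arg (z x)) (fun x hx ↦
      ((continuousAt_arg (hslit' x hx)).comp hzc.continuousAt).continuousWithinAt)
  have hx10 : x1 ≠ 0 := by
    rintro rfl
    simpa using hx1.2
  have hmax' : ∀ x ∈ F, x ≠ 0 → arg (z x) ≤ arg (z x1) := by
    intro x hx h0
    have h1 := hmax (norm_mem x hx h0)
    simp only [Set.mem_ofPred_eq, map_smul] at h1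
    rw [real_smul, arg_real_mul _ (by positivity)] at h1
    exact h1
  have hw : z x1 ∈ slitPlane := hslit' x1 hx1
  have hw0 : z x1 ≠ 0 := slitPlane_ne_zero hw
  have hθ : |arg (z x1)| < Real.pi := by
    rw [abs_lt]
    refine ⟨neg_pi_lt_arg _, lt_of_le_of_ne (arg_le_pi _) ?_⟩
    exact (mem_slitPlane_iff_arg.1 hw).1
  -- the normalised linear map
  let κ : ℂ × ℂ →ₗ[ℝ] ℂ := (LinearMap.mulRight ℝ (z x1)⁻¹) ∘ₗ z
  have hκ : ∀ y, κ y = z y * (z x1)⁻¹ := fun y ↦ rfl
  have hκc : Continuous κ := κ.continuous_of_finiteDimensional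
  have hκ1 : κ x1 = 1 := by rw [hκ]; exact mul_inv_cancel₀ hw0
  have hκsurj : Function.Surjective κ := by
    intro w
    obtain ⟨y, hy⟩ := hsurj (w * z x1)
    exact ⟨y, by rw [hκ, hy]; field_simp⟩
  have hκopen : IsOpenMap κ := κ.isOpenMap_of_finiteDimensional hκsurj
  have hcarg : ContinuousAt (fun y ↦ arg (κ y)) x1 := by
    apply ContinuousAt.comp (g := arg)
    · rw [hκ1]
      exact continuousAt_arg (by simp)
    · exact hκc.continuousAt
  have hN : ∀ᶠ y in nhds x1, |arg (κ y)| < Real.pi - |arg (z x1)| ∧ y ≠ 0 := by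
    apply Filter.Eventually.and
    · have : Filter.Tendsto (fun y ↦ |arg (κ y)|) (nhds x1) (nhds 0) := by
        have := hcarg.abs
        unfold ContinuousAt at this
        simpa [hκ1] using this
      exact this.eventually (gt_mem_nhds (by linarith))
    · exact isOpen_ne.mem_nhds hx10
  obtain ⟨N, hNsub, hNopen, hx1N⟩ := mem_nhds_iff.1 hN
  have hA : ∀ y ∈ N, y ∈ F → (κ y).im ≤ 0 := by
    intro y hyN hyF
    obtain ⟨h1, h2⟩ := hNsub hyN
    by_contra hcon
    push Not at hcon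
    have h3 := arg_pos_of_im_pos hcon
    have hκ0 : κ y ≠ 0 := by
      intro h; rw [h] at hcon; simp at hcon
    have e : z y = κ y * z x1 := by rw [hκ]; field_simp
    have h4 : arg (z y) = arg (κ y) + arg (z x1) := by
      rw [e]
      apply arg_mul hκ0 hw0
      rw [abs_lt] at h1 hθ
      constructor
      · have := neg_abs_le (arg (z x1)); linarith
      · have := le_abs_self (arg (z x1)); linarith
    have := hmax' y hyF h2
    linarith
  obtain ⟨b, -, δ, hδ, hb⟩ := hP x1 hx1.1 hx10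
  -- small parameter
  have hsmall : ∀ᶠ t : ℝ in nhds 0, x1 + t • b ∈ N ∧ x1 + (-t) • b ∈ N := by
    apply Filter.Eventually.and
    · have : Filter.Tendsto (fun t : ℝ ↦ x1 + t • b) (nhds 0) (nhds x1) := by
        have : Continuous (fun t : ℝ ↦ x1 + t • b) := by fun_prop
        simpa using this.tendsto 0
      exact this.eventually (hNopen.mem_nhds hx1N)
    · have : Filter.Tendsto (fun t : ℝ ↦ x1 + (-t) • b) (nhds 0) (nhds x1) := by
        have : Continuous (fun t : ℝ ↦ x1 + (-t) • b) := by fun_prop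
        simpa using this.tendsto 0
      exact this.eventually (hNopen.mem_nhds hx1N)
  obtain ⟨ε, hε, hball⟩ := Metric.eventually_nhds_iff.1 hsmall
  obtain ⟨t, ht0, ht1⟩ : ∃ t : ℝ, 0 < t ∧ t < min ε δ :=
    ⟨min ε δ / 2, by positivity, by linarith [lt_min hε hδ]⟩
  obtain ⟨ht2, ht3⟩ := hball (y := t) (by
    rw [Real.dist_0_eq_abs, abs_of_pos ht0]; exact lt_of_lt_of_le ht1 (min_le_left _ _))
  have htδ : |t| < δ := by rw [abs_of_pos ht0]; exact lt_of_lt_of_le ht1 (min_le_right _ _)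
  have hF1 := hb t ht0.ne' htδ
  have hF2 := hb (-t) (by linarith) (by rwa [abs_neg])
  have i1 := hA _ ht2 (interior_subset hF1)
  have i2 := hA _ ht3 (interior_subset hF2)
  rw [map_add, map_smul, hκ1, add_im, one_im, zero_add, smul_im] at i1 i2
  simp only [smul_eq_mul] at i1 i2
  have i3 : (κ b).im = 0 := by
    have a1 : (κ b).im ≤ 0 := by
      by_contra h; push Not at h; nlinarith
    have a2 : 0 ≤ (κ b).im := by
      by_contra h; push Not at h; nlinarith
    linarith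
  have hO : IsOpen (N ∩ interior F) := hNopen.inter isOpen_interior
  have hOim := hκopen _ hO
  have hy1 : κ (x1 + t • b) ∈ κ '' (N ∩ interior F) := ⟨_, ⟨ht2, hF1⟩, rfl⟩
  obtain ⟨η, hη, hη2⟩ := Metric.isOpen_iff.1 hOim _ hy1
  obtain ⟨y, ⟨hyN, hyF⟩, hy⟩ := hη2 (show κ (x1 + t • b) + ((η / 2 : ℝ) : ℂ) * I ∈
    Metric.ball (κ (x1 + t • b)) η by
      rw [Metric.mem_ball, dist_eq_norm, add_sub_cancel_left, norm_mul, norm_real, norm_I,
        mul_one, Real.norm_of_nonneg (by positivity)]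
      linarith)
  have h5 := hA y hyN (interior_subset hyF)
  rw [hy] at h5
  rw [map_add, map_smul, hκ1] at h5
  simp [i3] at h5
  linarith

/-- For every three dimensional subspace and every functional on it there is a nonzero element
of the cone in the subspace on which the functional is nonnegative. -/
lemma exists_direction {F : Set (ℂ × ℂ)} (hclosed : IsClosed F)
    (hcone : ∀ r : ℝ, 0 ≤ r → ∀ x ∈ F, r • x ∈ F) (hP : PropP F)
    (hne : ∃ x ∈ F, x ≠ 0) {D : Type} [AddCommGroup D] [Module ℝ D] [FiniteDimensional ℝ D]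
    (hD : Module.finrank ℝ D = 3) (g : D →ₗ[ℝ] ℂ × ℂ) (hg : Function.Injective g)
    (Λ : D →ₗ[ℝ] ℝ) : ∃ d : D, d ≠ 0 ∧ g d ∈ F ∧ 0 ≤ Λ d := by
  by_contra hcon
  push Not at hcon
  have hnt : Nontrivial D := Module.nontrivial_of_finrank_pos (R := ℝ) (by omega)
  obtain ⟨Λ', hΛ0, hΛ'⟩ : ∃ Λ' : D →ₗ[ℝ] ℝ, Λ' ≠ 0 ∧ ∀ d : D, d ≠ 0 → g d ∈ F → Λ' d < 0 := by
    by_cases h0 : Λ = 0
    · obtain ⟨d0, hd0⟩ := exists_ne (0 : D)
      obtain ⟨f, hf⟩ := Module.Projective.exists_dual_ne_zero ℝ hd0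
      refine ⟨f, fun h ↦ hf (by rw [h]; rfl), fun d hd hgd ↦ ?_⟩
      have := hcon d hd hgd
      rw [h0] at this
      simp at this
    · exact ⟨Λ, h0, hcon⟩
  have hrange : Module.finrank ℝ (LinearMap.range g) = 3 := by
    rw [LinearMap.finrank_range_of_inj hg, hD]
  have hfull : Module.finrank ℝ (ℂ × ℂ) = 4 := by
    rw [Module.finrank_prod, Complex.finrank_real_complex]
  have hlt : LinearMap.range g < ⊤ := by
    apply lt_top_iff_ne_top.2
    intro h
    rw [h, finrank_top, hfull] at hrange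
    omega
  obtain ⟨e, he0, hle⟩ := Submodule.exists_le_ker_of_lt_top _ hlt
  have hker : LinearMap.ker e = LinearMap.range g := by
    symm
    apply Submodule.eq_of_le_of_finrank_eq hle
    have := Module.Dual.finrank_ker_add_one_of_ne_zero he0
    omega
  obtain ⟨h, hh⟩ := LinearMap.exists_leftInverse_of_injective g (LinearMap.ker_eq_bot.2 hg)
  have hh' : ∀ d, h (g d) = d := fun d ↦ by
    have := congrArg (fun f ↦ f d) hh
    simpa using this
  let z : ℂ × ℂ →ₗ[ℝ] ℂ := -(Complex.ofRealCLM.toLinearMap ∘ₗ (Λ' ∘ₗ h)) +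
    (LinearMap.mulLeft ℝ I) ∘ₗ (Complex.ofRealCLM.toLinearMap ∘ₗ e)
  have hz : ∀ x, z x = ((-(Λ' (h x)) : ℝ) : ℂ) + I * (e x : ℝ) := by
    intro x
    simp [z]
  apply not_slit hclosed hcone hP hne z
  · intro w
    obtain ⟨y0, hy0⟩ : ∃ y, e y = 1 := by
      obtain ⟨y, hy⟩ := DFunLike.ne_iff.1 he0
      refine ⟨(e y)⁻¹ • y, ?_⟩
      rw [map_smul, smul_eq_mul]
      exact inv_mul_cancel₀ hy
    obtain ⟨d0, hd0⟩ : ∃ d, Λ' d = 1 := by
      obtain ⟨y, hy⟩ := DFunLike.ne_iff.1 hΛ0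
      refine ⟨(Λ' y)⁻¹ • y, ?_⟩
      rw [map_smul, smul_eq_mul]
      exact inv_mul_cancel₀ hy
    have hed : e (g d0) = 0 := by
      have : g d0 ∈ LinearMap.ker e := by rw [hker]; exact ⟨d0, rfl⟩
      exact this
    refine ⟨w.im • y0 + (-w.re - w.im * Λ' (h y0)) • g d0, ?_⟩
    rw [hz]
    apply Complex.ext
    · simp [hh', hd0, hed]
    · simp [hy0, hed]
  · intro x hx hx0
    rw [mem_slitPlane_iff]
    by_cases hex : e x = 0
    · left
      have : x ∈ LinearMap.range g := by rw [← hker]; exact hex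
      obtain ⟨d, rfl⟩ := this
      have hd : d ≠ 0 := by rintro rfl; simp at hx0
      have := hΛ' d hd hx
      rw [hz]
      simp [hh', hex]
      exact this
    · right
      rw [hz]
      simpa using hex

end Pool.Agent.Work.MP_e72e80_gt
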