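import Mathlib
import Pool.Agent.Work.MP_e72e80_gt.Direction

set_option autoImplicit false

open Complex

noncomputable section

namespace Pool.Agent.Work.MP_e72e80_gt

/-- Sum of squares. -/
def QQ (w : Fin 4 → ℝ) : ℝ := ∑ i, w i ^ 2

/-- The sum functional. -/
def sumL : (Fin 4 → ℝ) →ₗ[ℝ] ℝ := ∑ i, LinearMap.proj i

lemma sumL_apply (w : Fin 4 → ℝ) : sumL w = ∑ i, w i := by simp [sumL]

lemma sumL_ne_zero : sumL ≠ 0 := by
  intro h
  have := congrArg (fun f ↦ f (fun _ ↦ (1 : ℝ))) h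
  simp [sumL_apply] at this

lemma finrank_ker_sumL : Module.finrank ℝ (LinearMap.ker sumL) = 3 := by
  have := Module.Dual.finrank_ker_add_one_of_ne_zero sumL_ne_zero
  simp at this
  exact this

lemma QQ_add (w d : Fin 4 → ℝ) (t : ℝ) :
    QQ (w + t • d) = QQ w + 2 * t * (∑ i, w i * d i) + t ^ 2 * QQ d := by
  simp only [QQ, Fin.sum_univ_four, Pi.add_apply, Pi.smul_apply, smul_eq_mul]
  ring

lemma QQ_pos {d : Fin 4 → ℝ} (hd : d ≠ 0) : 0 < QQ d := by
  obtain ⟨i, hi⟩ := Function.ne_iff.1 hd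
  have : 0 < d i ^ 2 := by
    have : d i ≠ 0 := hi
    positivity
  exact lt_of_lt_of_le this (Finset.single_le_sum (f := fun i ↦ d i ^ 2)
    (fun _ _ ↦ sq_nonneg _) (Finset.mem_univ i))

lemma continuous_QQ : Continuous QQ := by unfold QQ; fun_prop

/-- The extended simplex. -/
def ext (j : Fin 4) (η : ℝ) : Set (Fin 4 → ℝ) :=
  {w | ∑ i, w i = 1 ∧ (∀ i, i ≠ j → 0 ≤ w i) ∧ -η ≤ w j}

lemma ext_bound {j : Fin 4} {η : ℝ} (hη : η ≤ 1) {w : Fin 4 → ℝ} (hw : w ∈ ext j η) (i : Fin 4) :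
    -2 ≤ w i ∧ w i ≤ 2 := by
  obtain ⟨h1, h2, h3⟩ := hw
  have hlow : ∀ i, -1 ≤ w i := by
    intro i
    by_cases h : i = j
    · subst h; linarith
    · have := h2 i h; linarith
  refine ⟨by linarith [hlow i], ?_⟩
  by_cases h : i = j
  · subst h
    have : ∑ k ∈ Finset.univ.erase i, w k + w i = 1 := by
      rw [Finset.sum_erase_add _ _ (Finset.mem_univ i)]; exact h1
    have h4 : 0 ≤ ∑ k ∈ Finset.univ.erase i, w k :=
      Finset.sum_nonneg (fun k hk ↦ h2 k (Finset.ne_of_mem_erase hk))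
    linarith
  · have e1 : ∑ k ∈ (Finset.univ.erase i).erase j, w k + w j + w i = 1 := by
      rw [Finset.sum_erase_add _ _ (by simp [Ne.symm h]),
        Finset.sum_erase_add _ _ (Finset.mem_univ i)]
      exact h1
    have h4 : 0 ≤ ∑ k ∈ (Finset.univ.erase i).erase j, w k :=
      Finset.sum_nonneg (fun k hk ↦ h2 k (Finset.ne_of_mem_erase hk))
    linarith

lemma QQ_le {j : Fin 4} {η : ℝ} (hη : η ≤ 1) {w : Fin 4 → ℝ} (hw : w ∈ ext j η) :
    QQ w ≤ 16 := by
  have : ∀ i ∈ Finset.univ, w i ^ 2 ≤ 4 := fun i _ ↦ by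
    have := ext_bound hη hw i
    nlinarith
  have := Finset.sum_le_sum this
  simpa [QQ] using (this.trans (by norm_num : _ ≤ (16 : ℝ)))

lemma isCompact_ext (j : Fin 4) {η : ℝ} (hη : η ≤ 1) : IsCompact (ext j η) := by
  apply IsCompact.of_isClosed_subset (isCompact_Icc (a := fun _ : Fin 4 ↦ (-2 : ℝ))
    (b := fun _ : Fin 4 ↦ (2 : ℝ)))
  · have h1 : IsClosed {w : Fin 4 → ℝ | ∑ i, w i = 1} := isClosed_eq (by fun_prop) (by fun_prop)
    have h2 : IsClosed {w : Fin 4 → ℝ | ∀ i, i ≠ j → 0 ≤ w i} := by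
      have : {w : Fin 4 → ℝ | ∀ i, i ≠ j → 0 ≤ w i} =
          ⋂ i, ⋂ (_ : i ≠ j), {w : Fin 4 → ℝ | 0 ≤ w i} := by
        ext w; simp
      rw [this]
      exact isClosed_iInter fun i ↦ isClosed_iInter fun _ ↦ isClosed_le (by fun_prop) (by fun_prop)
    have h3 : IsClosed {w : Fin 4 → ℝ | -η ≤ w j} := isClosed_le (by fun_prop) (by fun_prop)
    exact h1.inter (h2.inter h3)
  · intro w hw
    exact ⟨fun i ↦ (ext_bound hη hw i).1, fun i ↦ (ext_bound hη hw i).2⟩

theorem no_simplex {F : Set (ℂ × ℂ)} (hclosed : IsClosed F)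
    (hcone : ∀ r : ℝ, 0 ≤ r → ∀ x ∈ F, r • x ∈ F) (hP : PropP F)
    (hne : ∃ x ∈ F, x ≠ 0) (g : (Fin 4 → ℝ) →ₗ[ℝ] ℂ × ℂ) (j : Fin 4)
    (hfacet : ∀ w : Fin 4 → ℝ, (∀ i, 0 ≤ w i) → ∑ i, w i = 1 → (∃ i, i ≠ j ∧ w i = 0) → g w ∉ F)
    (w0 : Fin 4 → ℝ) (hw0 : ∀ i, 0 ≤ w0 i) (hw0s : ∑ i, w0 i = 1) (hw0F : g w0 ∈ F) : False := by
  have hgc : Continuous g := g.continuous_of_finiteDimensional
  have hFc : IsClosed (g ⁻¹' F) := hclosed.preimage hgc
  -- Step 1: the bad boundary set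
  have hBcl : IsClosed {w : Fin 4 → ℝ | ∃ i, i ≠ j ∧ w i = 0} := by
    have : {w : Fin 4 → ℝ | ∃ i, i ≠ j ∧ w i = 0} =
        ⋃ i ∈ {i : Fin 4 | i ≠ j}, {w : Fin 4 → ℝ | w i = 0} := by
      ext w; simp
    rw [this]
    exact Set.Finite.isClosed_biUnion (Set.toFinite _)
      (fun i _ ↦ isClosed_eq (by fun_prop) (by fun_prop))
  obtain ⟨η, hη0, hη1, hη⟩ : ∃ η : ℝ, 0 < η ∧ η ≤ 1 ∧ ∀ w ∈ ext j η, g w ∈ F →
      ∀ i, i ≠ j → 0 < w i := by
    have hB : IsCompact (ext j 1 ∩ (g ⁻¹' F ∩ {w : Fin 4 → ℝ | ∃ i, i ≠ j ∧ w i = 0})) :=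
      (isCompact_ext j le_rfl).inter_right (hFc.inter hBcl)
    have hneg : ∀ w ∈ ext j 1 ∩ (g ⁻¹' F ∩ {w : Fin 4 → ℝ | ∃ i, i ≠ j ∧ w i = 0}), w j < 0 := by
      rintro w ⟨⟨h1, h2, -⟩, h3, h4⟩
      by_contra hcon
      push Not at hcon
      refine hfacet w (fun i ↦ ?_) h1 h4 h3
      by_cases h : i = j
      · rw [h]; exact hcon
      · exact h2 i h
    have ext_mono : ∀ η : ℝ, η ≤ 1 → ext j η ⊆ ext j 1 := by
      rintro η hη w ⟨h1, h2, h3⟩
      exact ⟨h1, h2, by linarith⟩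
    rcases (ext j 1 ∩ (g ⁻¹' F ∩ {w : Fin 4 → ℝ | ∃ i, i ≠ j ∧ w i = 0})).eq_empty_or_nonempty
      with he | hnB
    · refine ⟨1, one_pos, le_rfl, fun w hw hwF i hi ↦ ?_⟩
      rcases (hw.2.1 i hi).lt_or_eq with h | h
      · exact h
      · exfalso
        have : w ∈ ext j 1 ∩ (g ⁻¹' F ∩ {w : Fin 4 → ℝ | ∃ i, i ≠ j ∧ w i = 0}) :=
          ⟨hw, hwF, i, hi, h.symm⟩
        rw [he] at this
        exact this
    · obtain ⟨wB, hwB, hmax⟩ := hB.exists_isMaxOn hnB
        (f := fun w ↦ w j) (by fun_prop)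
      have h0 := hneg wB hwB
      refine ⟨min 1 (-(wB j) / 2), lt_min one_pos (by linarith), min_le_left _ _,
        fun w hw hwF i hi ↦ ?_⟩
      rcases (hw.2.1 i hi).lt_or_eq with h | h
      · exact h
      · exfalso
        have h1 := hmax (show w ∈ _ from ⟨ext_mono _ (min_le_left _ _) hw, hwF, i, hi, h.symm⟩)
        simp only [Set.mem_ofPred_eq] at h1
        have h2 := hw.2.2
        have h3 := min_le_right 1 (-(wB j) / 2)
        linarith
  -- Step 2: the maximiser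
  have hS : IsCompact (ext j η ∩ g ⁻¹' F) := (isCompact_ext j hη1).inter_right hFc
  have hw0mem : w0 ∈ ext j η ∩ g ⁻¹' F :=
    ⟨⟨hw0s, fun i _ ↦ hw0 i, by linarith [hw0 j]⟩, hw0F⟩
  obtain ⟨w, hw, hmax⟩ := hS.exists_isMaxOn ⟨w0, hw0mem⟩
    (f := fun w ↦ w j + η / 32 * QQ w) (by
      apply Continuous.continuousOn
      exact (continuous_apply j).add (continuous_const.mul continuous_QQ))
  obtain ⟨⟨hw1, hw2, hw3⟩, hwF⟩ := hw
  have hwpos : ∀ i, i ≠ j → 0 < w i := hη w ⟨hw1, hw2, hw3⟩ hwF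
  have hmax' : ∀ y : Fin 4 → ℝ, ∑ i, y i = 1 → (∀ i, i ≠ j → 0 ≤ y i) → -η ≤ y j → g y ∈ F →
      y j + η / 32 * QQ y ≤ w j + η / 32 * QQ w := fun y h1 h2 h3 h4 ↦ hmax ⟨⟨h1, h2, h3⟩, h4⟩
  have hwj : -η < w j := by
    have h1 := hmax' w0 hw0s (fun i _ ↦ hw0 i) (by linarith [hw0 j]) hw0F
    have h2 : 0 ≤ QQ w0 := Finset.sum_nonneg (fun i _ ↦ sq_nonneg _)
    have h3 : QQ w ≤ 16 := QQ_le hη1 ⟨hw1, hw2, hw3⟩
    have h4 : η / 32 * QQ w ≤ η / 32 * 16 := by gcongr
    have h5 : 0 ≤ η / 32 * QQ w0 := by positivity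
    have := hw0 j
    linarith
  -- feasibility of small moves
  have hfeas : ∀ d : Fin 4 → ℝ, ∑ i, d i = 0 → ∀ᶠ t : ℝ in nhds 0,
      (∑ i, (w + t • d) i = 1) ∧ (∀ i, i ≠ j → 0 ≤ (w + t • d) i) ∧ -η ≤ (w + t • d) j := by
    intro d hd
    have hc : ∀ i, Filter.Tendsto (fun t : ℝ ↦ (w + t • d) i) (nhds 0) (nhds (w i)) := by
      intro i
      have : Continuous (fun t : ℝ ↦ (w + t • d) i) := by
        simp only [Pi.add_apply, Pi.smul_apply, smul_eq_mul]
        fun_prop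
      simpa using this.tendsto 0
    refine Filter.Eventually.and (Filter.Eventually.of_forall fun t ↦ ?_)
      (Filter.Eventually.and ?_ ?_)
    · simp only [Pi.add_apply, Pi.smul_apply, smul_eq_mul, Finset.sum_add_distrib,
        ← Finset.mul_sum]
      rw [hw1, hd]; ring
    · rw [Filter.eventually_all]
      intro i
      by_cases h : i = j
      · exact Filter.Eventually.of_forall fun t hne ↦ absurd h hne
      · exact ((hc i).eventually (lt_mem_nhds (hwpos i h))).mono fun t ht _ ↦ ht.le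
    · exact ((hc j).eventually (lt_mem_nhds hwj)).mono fun t ht ↦ ht.le
  -- no segment inside
  have hseg : ∀ d : Fin 4 → ℝ, d ≠ 0 → ∑ i, d i = 0 →
      (∀ᶠ t : ℝ in nhds 0, g (w + t • d) ∈ F) → False := by
    intro d hd0 hds hev
    obtain ⟨τ, hτ, hball⟩ := Metric.eventually_nhds_iff.1 ((hfeas d hds).and hev)
    have a1 := hball (y := τ / 2) (by
      rw [Real.dist_0_eq_abs, abs_of_pos (by positivity)]; linarith)
    have a2 := hball (y := -(τ / 2)) (by
      rw [Real.dist_0_eq_abs, abs_neg, abs_of_pos (by positivity)]; linarith)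
    have b1 := hmax' _ a1.1.1 a1.1.2.1 a1.1.2.2 a1.2
    have b2 := hmax' _ a2.1.1 a2.1.2.1 a2.1.2.2 a2.2
    rw [QQ_add] at b1 b2
    simp only [Pi.add_apply, Pi.smul_apply, smul_eq_mul] at b1 b2
    have hQ := QQ_pos hd0
    have : 0 < η / 32 * ((τ / 2) ^ 2 * QQ d) := by positivity
    nlinarith
  -- the direction space
  let D := LinearMap.ker sumL
  let gD : D →ₗ[ℝ] ℂ × ℂ := g ∘ₗ D.subtype
  have hDsum : ∀ d : D, ∑ i, (d : Fin 4 → ℝ) i = 0 := fun d ↦ by
    have := d.2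
    rwa [LinearMap.mem_ker, sumL_apply] at this
  by_cases hinj : Function.Injective gD
  swap
  · -- Case 1
    obtain ⟨d, hd0, hd⟩ : ∃ d : D, d ≠ 0 ∧ gD d = 0 := by
      by_contra hcon
      push Not at hcon
      apply hinj
      rw [← LinearMap.ker_eq_bot, LinearMap.ker_eq_bot']
      intro m hm
      by_contra hm0
      exact hcon m hm0 hm
    refine hseg d (by simpa using hd0) (hDsum d) (Filter.Eventually.of_forall fun t ↦ ?_)
    have : g (d : Fin 4 → ℝ) = 0 := hd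
    rw [map_add, map_smul, this, smul_zero, add_zero]
    exact hwF
  · by_cases hx : g w = 0
    · -- Case 2b
      let Λ : D →ₗ[ℝ] ℝ := (LinearMap.proj j + (η / 32 * 2) • ∑ i, w i • LinearMap.proj i) ∘ₗ
        D.subtype
      have hΛ : ∀ d : D, Λ d = (d : Fin 4 → ℝ) j +
          η / 32 * 2 * ∑ i, w i * (d : Fin 4 → ℝ) i := by
        intro d
        simp [Λ, Finset.sum_apply]
      obtain ⟨d, hd0, hdF, hdΛ⟩ := exists_direction hclosed hcone hP hne finrank_ker_sumL gD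
        hinj Λ
      rw [hΛ] at hdΛ
      obtain ⟨τ, hτ, hball⟩ := Metric.eventually_nhds_iff.1 (hfeas d (hDsum d))
      have a1 := hball (y := τ / 2) (by
        rw [Real.dist_0_eq_abs, abs_of_pos (by positivity)]; linarith)
      have hgF : g (w + (τ / 2) • (d : Fin 4 → ℝ)) ∈ F := by
        rw [map_add, hx, zero_add, map_smul]
        exact hcone _ (by positivity) _ hdF
      have b1 := hmax' _ a1.1 a1.2.1 a1.2.2 hgF
      rw [QQ_add] at b1
      simp only [Pi.add_apply, Pi.smul_apply, smul_eq_mul] at b1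
      have hQ : 0 < QQ (d : Fin 4 → ℝ) := QQ_pos (by simpa using hd0)
      have h1 : 0 < η / 32 * ((τ / 2) ^ 2 * QQ (d : Fin 4 → ℝ)) := by positivity
      have h2 : 0 ≤ (τ / 2) * ((d : Fin 4 → ℝ) j +
          η / 32 * 2 * ∑ i, w i * (d : Fin 4 → ℝ) i) := by positivity
      nlinarith
    · -- Case 2a
      obtain ⟨b, hb, δ, hδ, hbF⟩ := hP (g w) hwF hx
      let T : D × ℝ × ℝ →ₗ[ℝ] ℂ × ℂ :=
        gD ∘ₗ LinearMap.fst ℝ D (ℝ × ℝ) -
          (LinearMap.toSpanSingleton ℝ (ℂ × ℂ) (g w)) ∘ₗ LinearMap.fst ℝ ℝ ℝ ∘ₗ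
            LinearMap.snd ℝ D (ℝ × ℝ) -
          (LinearMap.toSpanSingleton ℝ (ℂ × ℂ) b) ∘ₗ LinearMap.snd ℝ ℝ ℝ ∘ₗ
            LinearMap.snd ℝ D (ℝ × ℝ)
      have hT : ∀ p : D × ℝ × ℝ, T p = gD p.1 - p.2.1 • g w - p.2.2 • b := fun p ↦ by
        simp [T]
      have hker : LinearMap.ker T ≠ ⊥ := by
        apply LinearMap.ker_ne_bot_of_finrank_lt
        rw [Module.finrank_prod, Module.finrank_prod, Module.finrank_prod,
          Complex.finrank_real_complex, finrank_ker_sumL]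
        simp
      obtain ⟨⟨d, α, β⟩, hmem, hp0⟩ := Submodule.exists_mem_ne_zero_of_ne_bot hker
      rw [LinearMap.mem_ker, hT] at hmem
      simp only at hmem
      have hgd : g (d : Fin 4 → ℝ) = α • g w + β • b := by
        have : gD d = g (d : Fin 4 → ℝ) := rfl
        rw [← this]
        rw [sub_sub, sub_eq_zero] at hmem
        exact hmem
      have hd0 : d ≠ 0 := by
        rintro rfl
        simp only [ZeroMemClass.coe_zero, map_zero] at hgd
        have hβ : β = 0 := by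
          by_contra hβ
          apply hb (-(α / β))
          have h1 : β • b = -(α • g w) := by
            rw [eq_neg_iff_add_eq_zero, add_comm]; exact hgd.symm
          have h2 : b = β⁻¹ • (β • b) := by rw [smul_smul, inv_mul_cancel₀ hβ, one_smul]
          rw [h2, h1, ← neg_smul, smul_smul]
          congr 1
          field_simp
        subst hβ
        simp only [zero_smul, add_zero] at hgd
        have hα : α = 0 := by
          rcases smul_eq_zero.1 hgd.symm with h | h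
          · exact h
          · exact absurd h hx
        subst hα
        exact hp0 rfl
      refine hseg d (by simpa using hd0) (hDsum d) ?_
      have hev1 : ∀ᶠ t : ℝ in nhds 0, 0 < 1 + t * α ∧ |t * β / (1 + t * α)| < δ := by
        apply Filter.Eventually.and
        · have : Filter.Tendsto (fun t : ℝ ↦ 1 + t * α) (nhds 0) (nhds 1) := by
            have : Continuous (fun t : ℝ ↦ 1 + t * α) := by fun_prop
            simpa using this.tendsto 0
          exact this.eventually (lt_mem_nhds one_pos)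
        · have : Filter.Tendsto (fun t : ℝ ↦ |t * β / (1 + t * α)|) (nhds 0) (nhds 0) := by
            have : ContinuousAt (fun t : ℝ ↦ |t * β / (1 + t * α)|) 0 := by
              apply ContinuousAt.abs
              apply ContinuousAt.div (by fun_prop) (by fun_prop)
              simp
            simpa [ContinuousAt] using this
          exact this.eventually (gt_mem_nhds hδ)
      filter_upwards [hev1] with t ht
      obtain ⟨ht1, ht2⟩ := ht
      have e : g (w + t • (d : Fin 4 → ℝ)) =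
          (1 + t * α) • (g w + (t * β / (1 + t * α)) • b) := by
        rw [map_add, map_smul, hgd, smul_add, smul_add, smul_smul, smul_smul, smul_smul,
          mul_div_cancel₀ _ ht1.ne', add_smul, one_smul]
        abel
      rw [e]
      apply hcone _ ht1.le
      by_cases h0 : t * β / (1 + t * α) = 0
      · rw [h0, zero_smul, add_zero]; exact hwF
      · exact interior_subset (hbF _ h0 ht2)

end Pool.Agent.Work.MP_e72e80_gt
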