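import Mathlib

set_option autoImplicit false

open CategoryTheory AlgebraicTopology Limits Simplicial

noncomputable section

namespace Pool.Agent.Work.MP_e72e80_gt

/-- The coefficient object, the integers. -/
abbrev ZZ : ModuleCat.{0} ℤ := ModuleCat.of ℤ ℤ

/-- The complex numbers as an abelian group. -/
abbrev CC : ModuleCat.{0} ℤ := ModuleCat.of ℤ ℂ

instance instContr (n : ℕ) : ContractibleSpace (stdSimplex ℝ (Fin (n + 1))) :=
  (convex_stdSimplex ℝ (Fin (n + 1))).contractibleSpace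
    ⟨_, single_mem_stdSimplex ℝ (0 : Fin (n + 1))⟩

instance instLPC (n : ℕ) : LocallyPathConnectedSpace (stdSimplex ℝ (Fin (n + 1))) :=
  (convex_stdSimplex ℝ (Fin (n + 1))).locallyPathConnectedSpace

lemma existsUnique_log {n : ℕ} (f : C(stdSimplex ℝ (Fin (n + 1)), ℂ)) (hf : ∀ x, f x ≠ 0)
    (x₀ : stdSimplex ℝ (Fin (n + 1))) (z₀ : ℂ) (hz : Complex.exp z₀ = f x₀) :
    ∃! F : C(stdSimplex ℝ (Fin (n + 1)), ℂ), F x₀ = z₀ ∧ Complex.exp ∘ F = f :=
  Complex.isCoveringMapOn_exp.existsUnique_continuousMap_lifts f hz (fun a ↦ by simpa using hf a)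

lemma exists_log {n : ℕ} (f : C(stdSimplex ℝ (Fin (n + 1)), ℂ)) (hf : ∀ x, f x ≠ 0) :
    ∃ F : C(stdSimplex ℝ (Fin (n + 1)), ℂ), ∀ x, Complex.exp (F x) = f x := by
  obtain ⟨F, ⟨_, hF⟩, _⟩ := existsUnique_log f hf (stdSimplex.vertex 0)
    (Complex.log (f (stdSimplex.vertex 0))) (Complex.exp_log (hf _))
  exact ⟨F, fun x ↦ congrFun hF x⟩

lemma log_unique {n : ℕ} (F G : C(stdSimplex ℝ (Fin (n + 1)), ℂ))
    (h : ∀ x, Complex.exp (F x) = Complex.exp (G x)) (x y : stdSimplex ℝ (Fin (n + 1))) :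
    F x - F y = G x - G y := by
  obtain ⟨K, _, hK⟩ := existsUnique_log (n := n) ⟨fun t ↦ Complex.exp (F t), by fun_prop⟩
    (fun t ↦ Complex.exp_ne_zero _) y (F y) rfl
  have h1 := hK F ⟨rfl, rfl⟩
  have h2 := hK ⟨fun t ↦ G t + (F y - G y), by fun_prop⟩ ⟨by simp, by
    funext t
    simp only [Function.comp_apply, ContinuousMap.coe_mk, Complex.exp_add, Complex.exp_sub, ← h]
    field_simp⟩
  have h3 : F x = G x + (F y - G y) := by
    have := congrArg (fun (A : C(stdSimplex ℝ (Fin (n + 1)), ℂ)) ↦ A x) (h1.trans h2.symm)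
    simpa using this
  rw [h3]; ring

open Classical in
/-- The increment of a continuous logarithm along a singular 1-simplex. -/
def incr (f : C(stdSimplex ℝ (Fin 2), ℂ)) : ℂ :=
  if hf : ∀ x, f x ≠ 0 then
    (exists_log f hf).choose (stdSimplex.vertex 1) - (exists_log f hf).choose (stdSimplex.vertex 0)
  else 0

lemma incr_eq (f F : C(stdSimplex ℝ (Fin 2), ℂ)) (h : ∀ x, Complex.exp (F x) = f x) :
    incr f = F (stdSimplex.vertex 1) - F (stdSimplex.vertex 0) := by
  have hf : ∀ x, f x ≠ 0 := fun x ↦ by rw [← h]; exact Complex.exp_ne_zero _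
  unfold incr
  rw [dif_pos hf]
  apply log_unique
  intro x
  rw [(exists_log f hf).choose_spec, h]

variable (X : TopCat.{0}) (h : C(X, ℂ)) (hh : ∀ x, h x ≠ 0)

/-- The winding cochain. -/
def windCochain : ((TopCat.toSSet.obj X).chainComplex ZZ).X 1 ⟶ CC :=
  Sigma.desc (fun σ : (TopCat.toSSet.obj X) _⦋1⦌ ↦
    ModuleCat.ofHom (LinearMap.toSpanSingleton ℤ ℂ (incr (h.comp (X.toSSetObjEquiv _ σ)))))

lemma ι_windCochain (σ : (TopCat.toSSet.obj X) _⦋1⦌) :
    (TopCat.toSSet.obj X).ιChainComplex σ ≫ windCochain X h =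
      ModuleCat.ofHom (LinearMap.toSpanSingleton ℤ ℂ (incr (h.comp (X.toSSetObjEquiv _ σ)))) := by
  exact Sigma.ι_desc _ _

include hh in
lemma d_windCochain :
    ((TopCat.toSSet.obj X).chainComplex ZZ).d 2 1 ≫ windCochain X h = 0 := by
  apply SSet.chainComplex_hom_ext
  intro τ
  rw [comp_zero, ← Category.assoc]
  have h1 := SSet.ιChainComplex_d (X := TopCat.toSSet.obj X) (R := ZZ) (n := 1) τ
  rw [h1]
  rw [Fin.sum_univ_three]
  simp only [Preadditive.add_comp, Preadditive.zsmul_comp, ι_windCochain]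
  obtain ⟨F, hF⟩ := exists_log (n := 2) (h.comp (X.toSSetObjEquiv _ τ)) (fun x ↦ hh _)
  have key : ∀ i : Fin 3, incr (h.comp (X.toSSetObjEquiv _ ((TopCat.toSSet.obj X).δ i τ))) =
      F (stdSimplex.vertex (i.succAbove 1)) - F (stdSimplex.vertex (i.succAbove 0)) := by
    intro i
    rw [incr_eq _ (F.comp ⟨stdSimplex.map i.succAbove, stdSimplex.continuous_map _⟩)]
    · simp
    · intro x
      simp only [ContinuousMap.comp_apply, ContinuousMap.coe_mk]
      rw [hF]
      rfl
  rw [key, key, key]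
  have e21 : Fin.succAbove (2 : Fin 3) (1 : Fin 2) = 1 := rfl
  ext
  simp [e21]

/-- The singular 1-simplex running once around the circle. -/
def loopSimplex : (TopCat.toSSet.obj (TopCat.of Circle)) _⦋1⦌ :=
  ((TopCat.of Circle).toSSetObjEquiv _).symm
    ⟨fun x ↦ Circle.exp (2 * Real.pi * x.1 1), Circle.exp.continuous.comp
      (continuous_const.mul ((continuous_apply 1).comp continuous_subtype_val))⟩

lemma loopSimplex_d :
    (TopCat.toSSet.obj (TopCat.of Circle)).ιChainComplex (R := ZZ) loopSimplex ≫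
      ((TopCat.toSSet.obj (TopCat.of Circle)).chainComplex ZZ).d 1 0 = 0 := by
  have h1 := SSet.ιChainComplex_d (X := TopCat.toSSet.obj (TopCat.of Circle)) (R := ZZ)
    (n := 0) loopSimplex
  rw [h1, Fin.sum_univ_two]
  have : ∀ i : Fin 2, (TopCat.toSSet.obj (TopCat.of Circle)).δ i loopSimplex =
      ((TopCat.of Circle).toSSetObjEquiv _).symm ⟨fun _ ↦ (1 : Circle), by fun_prop⟩ := by
    intro i
    apply ((TopCat.of Circle).toSSetObjEquiv _).injective
    ext x
    rw [Equiv.apply_symm_apply]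
    change ((Circle.exp (2 * Real.pi * (stdSimplex.map i.succAbove x).1 1) : Circle) : ℂ) = 1
    obtain rfl : x = stdSimplex.vertex 0 := Subsingleton.elim _ _
    rw [stdSimplex.map_vertex]
    fin_cases i
    · simp
    · simp
  rw [this, this]
  simp

/-- The class of the loop in the first homology of the circle. -/
def loopClass : ZZ ⟶ ((TopCat.toSSet.obj (TopCat.of Circle)).chainComplex ZZ).homology 1 :=
  ((TopCat.toSSet.obj (TopCat.of Circle)).chainComplex ZZ).liftCycles
    ((TopCat.toSSet.obj (TopCat.of Circle)).ιChainComplex loopSimplex) 0 (by simp) loopSimplex_d ≫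
    ((TopCat.toSSet.obj (TopCat.of Circle)).chainComplex ZZ).homologyπ 1

/-- The winding homomorphism on first homology. -/
def windHom : ((TopCat.toSSet.obj X).chainComplex ZZ).homology 1 ⟶ CC :=
  ((TopCat.toSSet.obj X).chainComplex ZZ).homologyι 1 ≫
    ((TopCat.toSSet.obj X).chainComplex ZZ).descOpcycles (windCochain X h) 2 (by simp)
      (d_windCochain X h hh)

lemma loopClass_windHom (g : TopCat.of Circle ⟶ X) :
    loopClass ≫ HomologicalComplex.homologyMap
      (SSet.chainComplexMap (TopCat.toSSet.map g) ZZ) 1 ≫ windHom X h hh =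
    ModuleCat.ofHom (LinearMap.toSpanSingleton ℤ ℂ
      (incr (h.comp (g.hom.comp ((TopCat.of Circle).toSSetObjEquiv _ loopSimplex))))) := by
  rw [loopClass, windHom]
  simp only [Category.assoc]
  rw [HomologicalComplex.homologyπ_naturality_assoc,
    HomologicalComplex.liftCycles_comp_cyclesMap_assoc,
    HomologicalComplex.homology_π_ι_assoc, HomologicalComplex.liftCycles_i_assoc,
    HomologicalComplex.p_descOpcycles, SSet.ι_chainComplexMap_f, ι_windCochain]
  rfl

include hh in
theorem homology_map_ne (g₀ g₁ : TopCat.of Circle ⟶ X)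
    (hne : incr (h.comp (g₀.hom.comp ((TopCat.of Circle).toSSetObjEquiv _ loopSimplex))) ≠
      incr (h.comp (g₁.hom.comp ((TopCat.of Circle).toSSetObjEquiv _ loopSimplex)))) :
    ((singularHomologyFunctor (ModuleCat.{0} ℤ) 1).obj ZZ).map g₀ ≠
      ((singularHomologyFunctor (ModuleCat.{0} ℤ) 1).obj ZZ).map g₁ := by
  intro e
  apply hne
  change HomologicalComplex.homologyMap (SSet.chainComplexMap (TopCat.toSSet.map g₀) ZZ) 1 =
    HomologicalComplex.homologyMap (SSet.chainComplexMap (TopCat.toSSet.map g₁) ZZ) 1 at e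
  have h0 := loopClass_windHom X h hh g₀
  have h1 := loopClass_windHom X h hh g₁
  rw [e, h1] at h0
  have := congrArg (fun f ↦ (ModuleCat.Hom.hom f) (1 : ℤ)) h0
  simpa using this.symm

end Pool.Agent.Work.MP_e72e80_gt
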