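import Mathlib
import Pool.Agent.Work.MP_e72e80_gt.Defs
import Pool.Agent.Work.MP_e72e80_gt.Cone
import Pool.Agent.Work.MP_e72e80_gt.Simplex
import Pool.Agent.Work.MP_e72e80_gt.Winding

set_option autoImplicit false

open Complex CategoryTheory AlgebraicTopology

noncomputable section

namespace Pool.Agent.Work.MP_e72e80_gt

section

variable (n : ℕ)

/-- The `i`-th standard coordinate vector. -/
def ee (i : ℕ) (hi : i < n + 4) : EuclideanSpace ℝ (Fin (n + 4)) :=
  EuclideanSpace.single ⟨i, hi⟩ 1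

/-- The embedding `ℂ × ℂ → ℝ^(n+4)`. -/
def iota : ℂ × ℂ →ₗ[ℝ] EuclideanSpace ℝ (Fin (n + 4)) where
  toFun x := x.1.re • ee n 0 (by omega) + x.1.im • ee n 1 (by omega) +
    x.2.re • ee n 2 (by omega) + x.2.im • ee n 3 (by omega)
  map_add' x y := by simp only [Prod.fst_add, Prod.snd_add, add_re, add_im, add_smul]; abel
  map_smul' r x := by
    simp only [Prod.smul_fst, Prod.smul_snd, real_smul, mul_re, mul_im, ofReal_re, ofReal_im,
      zero_mul, sub_zero, add_zero, smul_add, smul_smul, RingHom.id_apply]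

/-- The projection `ℝ^(n+4) → ℂ × ℂ`. -/
def proj : EuclideanSpace ℝ (Fin (n + 4)) →ₗ[ℝ] ℂ × ℂ where
  toFun x := (⟨x ⟨0, by omega⟩, x ⟨1, by omega⟩⟩, ⟨x ⟨2, by omega⟩, x ⟨3, by omega⟩⟩)
  map_add' x y := by
    apply Prod.ext <;> apply Complex.ext <;> simp
  map_smul' r x := by
    apply Prod.ext <;> apply Complex.ext <;> simp

lemma proj_iota (x : ℂ × ℂ) : proj n (iota n x) = x := by
  apply Prod.ext <;> apply Complex.ext <;>
    simp [proj, iota, ee, Fin.ext_iff]

lemma continuous_proj : Continuous (proj n) := (proj n).continuous_of_finiteDimensional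

lemma continuous_iota : Continuous (iota n) := (iota n).continuous_of_finiteDimensional

/-- The open set. -/
def Om : Set (EuclideanSpace ℝ (Fin (n + 4))) := {x | proj n x ∉ FF}

lemma isOpen_Om : IsOpen (Om n) := (isClosed_FF.preimage (continuous_proj n)).isOpen_compl

lemma base_mem : (((6 / 5 : ℝ) : ℂ), (1 : ℂ)) ∈ FF := by
  change Phi _ ≤ 0
  have : (((6 / 5 : ℝ) : ℂ), (1 : ℂ)) = (((6 / 5 : ℝ) : ℂ), (1 : ℂ) ^ 2) := by simp
  rw [this, Phi_nonpos_iff]
  left
  simp

theorem isKConvex_Om : IsKConvex 2 (n + 4) (Om n) := by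
  intro p _ j hfac y hy
  by_contra hcon
  have hyF : proj n y ∈ FF := by
    by_contra h
    exact hcon h
  -- the linear map of weights
  let g : (Fin 4 → ℝ) →ₗ[ℝ] ℂ × ℂ := proj n ∘ₗ Fintype.linearCombination ℝ p
  have hg : ∀ w : Fin 4 → ℝ, g w = proj n (∑ i, w i • p i) := fun w ↦ by
    simp [g, Fintype.linearCombination_apply]
  have hwy : ∃ w : Fin 4 → ℝ, (∀ i, 0 ≤ w i) ∧ ∑ i, w i = 1 ∧ ∑ i, w i • p i = y := by
    rw [convexHull_range_eq_exists_affineCombination] at hy
    obtain ⟨s, w, hw0, hw1, rfl⟩ := hy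
    refine ⟨fun i ↦ if i ∈ s then w i else 0, fun i ↦ ?_, ?_, ?_⟩
    · dsimp only
      split_ifs with h
      · exact hw0 i h
      · exact le_rfl
    · simpa using hw1
    · rw [Finset.affineCombination_eq_linear_combination _ _ _ hw1]
      simp
  obtain ⟨w, hw0, hw1, hwy⟩ := hwy
  refine no_simplex isClosed_FF (fun r hr x hx ↦ smul_mem_FF hr hx)
    (fun x hx h0 ↦ property_P hx h0) ⟨_, base_mem, by simp⟩ g j ?_ w hw0 hw1
    (by rw [hg, hwy]; exact hyF)
  intro v hv0 hv1 ⟨i, hij, hvi⟩ hgF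
  rw [hg] at hgF
  refine hfac i hij (a := ∑ i, v i • p i) ?_ hgF
  have h1 : ∑ k ∈ Finset.univ.erase i, v k = 1 := by
    rw [← hv1, ← Finset.sum_erase_add _ _ (Finset.mem_univ i), hvi, add_zero]
  have h2 : ∑ k, v k • p k = ∑ k ∈ Finset.univ.erase i, v k • p k := by
    rw [← Finset.sum_erase_add _ _ (Finset.mem_univ i), hvi, zero_smul, add_zero]
  rw [h2]
  apply (convex_convexHull ℝ _).sum_mem (fun k _ ↦ hv0 k) h1
  intro k hk
  exact subset_convexHull ℝ _ ⟨k, by simpa using Finset.ne_of_mem_erase hk, rfl⟩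

/-- The direction of the plane. -/
def iota1 : ℂ →ₗ[ℝ] EuclideanSpace ℝ (Fin (n + 4)) := iota n ∘ₗ LinearMap.inl ℝ ℂ ℂ

lemma iota1_injective : Function.Injective (iota1 n) := by
  intro x y h
  have := congrArg (fun z ↦ (proj n z).1) h
  simpa [iota1, proj_iota] using this

/-- The plane `v = 1`. -/
def plane : AffineSubspace ℝ (EuclideanSpace ℝ (Fin (n + 4))) :=
  AffineSubspace.mk' (iota n (0, 1)) (LinearMap.range (iota1 n))

lemma mem_plane (u : ℂ) : iota n (u, 1) ∈ plane n := by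
  rw [plane, AffineSubspace.mem_mk']
  refine ⟨u, ?_⟩
  rw [vsub_eq_sub, ← map_sub]
  simp [iota1]

lemma proj_snd_of_mem_plane {x : EuclideanSpace ℝ (Fin (n + 4))} (hx : x ∈ plane n) :
    (proj n x).2 = 1 := by
  rw [plane, AffineSubspace.mem_mk'] at hx
  obtain ⟨u, hu⟩ := hx
  rw [vsub_eq_sub] at hu
  have : x = iota1 n u + iota n (0, 1) := by rw [hu]; abel
  rw [this, map_add, proj_iota]
  simp [iota1, proj_iota]

lemma finrank_plane : Module.finrank ℝ (plane n).direction = 2 := by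
  rw [plane, AffineSubspace.direction_mk', LinearMap.finrank_range_of_inj (iota1_injective n),
    Complex.finrank_real_complex]

lemma notMem_FF (s ζ : ℂ) (hs : ‖s‖ = 1) (hζ : ‖ζ‖ = 1) :
    ((6 / 5 : ℝ) * s + (6 / 5 : ℝ) * ζ, s ^ 2) ∉ FF := by
  intro h
  change Phi _ ≤ 0 at h
  rw [Phi_nonpos_iff] at h
  rcases h with h | h
  · rw [hs] at h
    have e : (6 / 5 : ℝ) * s + (6 / 5 : ℝ) * ζ - (6 / 5 : ℝ) * ((1 : ℝ) : ℂ) * s =
      (6 / 5 : ℝ) * ζ := by push_cast; ring
    rw [e, norm_mul, hζ, norm_real] at h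
    norm_num at h
  · rw [norm_neg, hs] at h
    have e : (6 / 5 : ℝ) * s + (6 / 5 : ℝ) * ζ - (6 / 5 : ℝ) * ((1 : ℝ) : ℂ) * (-s) =
      (12 / 5 : ℝ) * s - (-((6 / 5 : ℝ) * ζ)) := by push_cast; ring
    rw [e] at h
    have h2 := norm_sub_norm_le ((12 / 5 : ℝ) * s) (-((6 / 5 : ℝ) * ζ))
    rw [norm_neg, norm_mul, norm_mul, hs, hζ, norm_real, norm_real] at h2
    norm_num at h h2
    linarith

/-- The moving loop. -/
def loopFun (t : ℝ) (ζ : Circle) : ℂ × ℂ :=
  ((6 / 5 : ℝ) * (Circle.exp (Real.pi * t) : ℂ) + (6 / 5 : ℝ) * (ζ : ℂ),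
    (Circle.exp (Real.pi * t) : ℂ) ^ 2)

lemma continuous_loopFun : Continuous (fun p : ℝ × Circle ↦ loopFun p.1 p.2) := by
  unfold loopFun
  have h1 : Continuous (fun p : ℝ × Circle ↦ (Circle.exp (Real.pi * p.1) : ℂ)) :=
    continuous_subtype_val.comp (Circle.exp.continuous.comp (by fun_prop))
  have h2 : Continuous (fun p : ℝ × Circle ↦ (p.2 : ℂ)) :=
    continuous_subtype_val.comp continuous_snd
  exact ((continuous_const.mul h1).add (continuous_const.mul h2)).prodMk (h1.pow 2)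

lemma loopFun_mem (t : ℝ) (ζ : Circle) : iota n (loopFun t ζ) ∈ Om n := by
  change proj n _ ∉ FF
  rw [proj_iota]
  exact notMem_FF _ _ (Circle.norm_coe _) (Circle.norm_coe _)

lemma loopFun_zero (ζ : Circle) : loopFun 0 ζ = ((6 / 5 : ℝ) + (6 / 5 : ℝ) * (ζ : ℂ), 1) := by
  simp [loopFun]

lemma loopFun_one (ζ : Circle) : loopFun 1 ζ = (-(6 / 5 : ℝ) + (6 / 5 : ℝ) * (ζ : ℂ), 1) := by
  simp [loopFun, Circle.coe_exp]

/-- The two loops in the plane section. -/
def gg (t : ℝ) (ht : t = 0 ∨ t = 1) :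
    C(Circle, ↥(Om n ∩ (plane n : Set (EuclideanSpace ℝ (Fin (n + 4)))))) where
  toFun ζ := ⟨iota n (loopFun t ζ), loopFun_mem n t ζ, by
    rcases ht with rfl | rfl
    · rw [loopFun_zero]; exact mem_plane n _
    · rw [loopFun_one]; exact mem_plane n _⟩
  continuous_toFun := by
    apply Continuous.subtype_mk
    exact (continuous_iota n).comp
      (continuous_loopFun.comp (continuous_const.prodMk continuous_id : Continuous
        (fun ζ : Circle ↦ (t, ζ))))

/-- The function `u - 6/5` on the plane section. -/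
def hh : C(↥(Om n ∩ (plane n : Set (EuclideanSpace ℝ (Fin (n + 4))))), ℂ) where
  toFun x := (proj n x.1).1 - (6 / 5 : ℝ)
  continuous_toFun := by
    exact ((continuous_fst.comp ((continuous_proj n).comp continuous_subtype_val))).sub
      continuous_const

lemma hh_ne_zero (x : ↥(Om n ∩ (plane n : Set (EuclideanSpace ℝ (Fin (n + 4)))))) :
    hh n x ≠ 0 := by
  intro h
  have h1 : (proj n x.1).1 = ((6 / 5 : ℝ) : ℂ) := sub_eq_zero.1 h
  have h2 := proj_snd_of_mem_plane n x.2.2
  apply x.2.1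
  have : proj n x.1 = (((6 / 5 : ℝ) : ℂ), (1 : ℂ)) := Prod.ext h1 h2
  rw [this]
  exact base_mem

theorem not_lefschetz : ¬ IsLefschetzKConvex 2 (n + 4) (Om n) := by
  intro hL
  have hinj := hL (plane n) ⟨_, mem_plane n 0⟩ (finrank_plane n)
  let X : TopCat.{0} := TopCat.of ↥(Om n ∩ (plane n : Set (EuclideanSpace ℝ (Fin (n + 4)))))
  let Y : TopCat.{0} := TopCat.of ↥(Om n)
  let incl : X ⟶ Y := TopCat.ofHom
    (⟨Set.inclusion Set.inter_subset_left, continuous_inclusion _⟩ :
      C(↥(Om n ∩ (plane n : Set (EuclideanSpace ℝ (Fin (n + 4))))), ↥(Om n)))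
  let g₀ : TopCat.of Circle ⟶ X := TopCat.ofHom (gg n 0 (Or.inl rfl))
  let g₁ : TopCat.of Circle ⟶ X := TopCat.ofHom (gg n 1 (Or.inr rfl))
  let H1 : TopCat.{0} ⥤ ModuleCat.{0} ℤ :=
    (singularHomologyFunctor (ModuleCat.{0} ℤ) 1).obj (ModuleCat.of ℤ ℤ)
  have hinj' : Function.Injective (H1.map incl) := hinj
  -- the homotopy
  let Hom : TopCat.Homotopy (g₀ ≫ incl) (g₁ ≫ incl) :=
    { toFun := fun p ↦ ⟨iota n (loopFun p.1.1 p.2), loopFun_mem n _ _⟩
      continuous_toFun := by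
        apply Continuous.subtype_mk
        exact (continuous_iota n).comp (continuous_loopFun.comp
          ((continuous_subtype_val.comp continuous_fst).prodMk continuous_snd))
      map_zero_left := fun x ↦ rfl
      map_one_left := fun x ↦ rfl }
  have hhom : H1.map (g₀ ≫ incl) = H1.map (g₁ ≫ incl) :=
    Hom.congr_homologyMap_singularChainComplexFunctor (ModuleCat.of ℤ ℤ) 1
  have heq : H1.map g₀ = H1.map g₁ := by
    rw [Functor.map_comp, Functor.map_comp] at hhom
    ext x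
    apply hinj'
    have := congrArg (fun f ↦ f.hom x) hhom
    simpa using this
  refine homology_map_ne X (hh n) (hh_ne_zero n) g₀ g₁ ?_ heq
  -- computation of the two increments
  let ζf : stdSimplex ℝ (Fin 2) → Circle := fun x ↦ Circle.exp (2 * Real.pi * x.1 1)
  have hζc : Continuous ζf := Circle.exp.continuous.comp
      (continuous_const.mul ((continuous_apply 1).comp continuous_subtype_val))
  have hζ : ∀ x, (ζf x : ℂ) = Complex.exp (2 * Real.pi * x.1 1 * I) := by
    intro x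
    simp [ζf, Circle.coe_exp]
  have hval : ∀ (t : ℝ) (ht : t = 0 ∨ t = 1) (x : stdSimplex ℝ (Fin 2)),
      ((hh n).comp ((gg n t ht).comp
        ((TopCat.of Circle).toSSetObjEquiv _ loopSimplex))) x =
      (loopFun t (ζf x)).1 - (6 / 5 : ℝ) := by
    intro t ht x
    change (proj n (iota n (loopFun t (ζf x)))).1 - _ = _
    rw [proj_iota]
  have v1 : ((stdSimplex.vertex (S := ℝ) (1 : Fin 2)).1 1 : ℝ) = 1 := by simp
  have v0 : ((stdSimplex.vertex (S := ℝ) (0 : Fin 2)).1 1 : ℝ) = 0 := by simp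
  have i0 : incr ((hh n).comp ((gg n 0 (Or.inl rfl)).comp
      ((TopCat.of Circle).toSSetObjEquiv _ loopSimplex))) = 2 * Real.pi * I := by
    rw [incr_eq _ ⟨fun x ↦ Complex.log ((6 / 5 : ℝ) : ℂ) + 2 * Real.pi * (x.1 1 : ℝ) * I,
      continuous_const.add ((continuous_const.mul (Complex.continuous_ofReal.comp
        ((continuous_apply 1).comp continuous_subtype_val))).mul continuous_const)⟩]
    · simp only [ContinuousMap.coe_mk, v1, v0]
      simp
    · intro x
      rw [hval, loopFun_zero]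
      simp only [ContinuousMap.coe_mk]
      rw [Complex.exp_add, Complex.exp_log (by norm_num), ← hζ]
      ring
  have i1 : incr ((hh n).comp ((gg n 1 (Or.inr rfl)).comp
      ((TopCat.of Circle).toSSetObjEquiv _ loopSimplex))) = 0 := by
    have hslit : ∀ x : stdSimplex ℝ (Fin 2),
        ((12 / 5 : ℝ) : ℂ) - (6 / 5 : ℝ) * (ζf x : ℂ) ∈ slitPlane := by
      intro x
      left
      have h1 : (ζf x : ℂ).re ≤ 1 := by
        have := Complex.re_le_norm (ζf x : ℂ)
        rwa [Circle.norm_coe] at this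
      simp only [sub_re, ofReal_re, re_ofReal_mul]
      linarith
    rw [incr_eq _ ⟨fun x ↦ Complex.log (((12 / 5 : ℝ) : ℂ) - (6 / 5 : ℝ) * (ζf x : ℂ)) +
      Real.pi * I, by
        apply Continuous.add _ continuous_const
        exact Continuous.clog (continuous_const.sub (continuous_const.mul
          (continuous_subtype_val.comp hζc))) hslit⟩]
    · have e1 : (ζf (stdSimplex.vertex 1) : ℂ) = 1 := by
        rw [hζ, v1]; simp [Complex.exp_two_pi_mul_I]
      have e0 : (ζf (stdSimplex.vertex 0) : ℂ) = 1 := by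
        rw [hζ, v0]; simp
      simp only [ContinuousMap.coe_mk, e1, e0]
      ring
    · intro x
      rw [hval, loopFun_one]
      simp only [ContinuousMap.coe_mk]
      rw [Complex.exp_add, Complex.exp_log (slitPlane_ne_zero (hslit x)), Complex.exp_pi_mul_I]
      push_cast
      ring
  change incr ((hh n).comp ((gg n 0 (Or.inl rfl)).comp
      ((TopCat.of Circle).toSSetObjEquiv _ loopSimplex))) ≠
    incr ((hh n).comp ((gg n 1 (Or.inr rfl)).comp
      ((TopCat.of Circle).toSSetObjEquiv _ loopSimplex)))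
  rw [i0, i1]
  simp [Real.pi_ne_zero]

end

end Pool.Agent.Work.MP_e72e80_gt
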